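import Mathlib
import Pool.Agent.Helper7.RM.Api

/-! Arithmetic in a model of `RCA₀`: remainders, coprimality, Gödel's beta function, recursion. -/

namespace Pool.Agent.Helper81.RM

open Pool.Agent.Helper7.RM

universe u

variable {N : Type u} [Mdl N] {Γ Δ Θ : Type u} [Cx N Γ] [Cx N Δ] [Cx N Θ]

/-! ### divisibility -/

theorem pos_iff {a : N} : 0 < a ↔ a ≠ 0 := pos_iff_ne_zero

theorem one_le_of_pos {a : N} (h : 0 < a) : 1 ≤ a := by
  have := (succ_le_iff' 0 a).2 h
  simpa using this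

theorem lt_one {a : N} : a < 1 ↔ a = 0 := by
  have := lt_succ_iff' a 0
  rw [zero_add] at this
  rw [this]
  exact nonpos_iff_eq_zero

theorem le_mul_of_pos {a b : N} (h : 0 < b) : a ≤ a * b :=
  le_mul_of_one_le_right' (one_le_of_pos h)

theorem le_mul_of_pos' {a b : N} (h : 0 < b) : a ≤ b * a := by
  rw [mul_comm]; exact le_mul_of_pos h

theorem le_of_dvd' {a b : N} (hb : 0 < b) (h : a ∣ b) : a ≤ b := by
  obtain ⟨c, rfl⟩ := h
  refine le_mul_of_pos (pos_iff.2 ?_)
  rintro rfl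
  simp at hb

theorem dvd_iff_le (a b : N) : a ∣ b ↔ ∃ c ≤ b, b = a * c := by
  constructor
  · rintro ⟨c, rfl⟩
    by_cases ha : a = 0
    · subst ha
      exact ⟨0, by simp, by simp⟩
    · exact ⟨c, le_mul_of_pos' (pos_iff.2 ha), rfl⟩
  · rintro ⟨c, _, h⟩
    exact ⟨c, h⟩

theorem Pr.dvd {f g : Γ → N} (hf : Fn f) (hg : Fn g) : Pr (fun x => f x ∣ g x) := by
  have h1 : Pr (fun x => ∃ c ≤ g x, g x = f x * c) := by
    refine Pr.bex_le hg (P := fun x c => g x = f x * c) ?_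
    exact Pr.eq (Fn.fst hg) (Fn.mul (Fn.fst hf) Fn.snd')
  exact h1.of_iff (fun x => dvd_iff_le _ _)

theorem dvd_of_dvd_add {d a b : N} (h : d ∣ a + b) (hb : d ∣ b) : d ∣ a := by
  obtain ⟨u, hu⟩ := h
  obtain ⟨w, rfl⟩ := hb
  refine ⟨u - w, ?_⟩
  rw [mul_tsub, ← hu, add_tsub_cancel_right]

theorem dvd_of_dvd_add' {d a b : N} (h : d ∣ a + b) (ha : d ∣ a) : d ∣ b := by
  rw [add_comm] at h
  exact dvd_of_dvd_add h ha

theorem dvd_antisymm' {a b : N} (h : a ∣ b) (h' : b ∣ a) : a = b := by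
  rcases eq_or_ne a 0 with rfl | ha
  · exact (zero_dvd_iff.1 h).symm
  · rcases eq_or_ne b 0 with rfl | hb
    · exact zero_dvd_iff.1 h'
    · exact le_antisymm (le_of_dvd' (pos_iff.2 hb) h) (le_of_dvd' (pos_iff.2 ha) h')

theorem eq_one_of_dvd_one {a : N} (h : a ∣ 1) : a = 1 := dvd_antisymm' h (one_dvd a)

/-! ### remainders -/

/-- `a` modulo `b` -/
noncomputable def md (a b : N) : N := mu (fun r => ∃ q ≤ a, a = b * q + r)

theorem md_pr : Pr (fun p : (N × N) × N => ∃ q ≤ p.1.1, p.1.1 = p.1.2 * q + p.2) := by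
  refine Pr.bex_le (Fn.fst Fn.fst') (P := fun (p : (N × N) × N) q => p.1.1 = p.1.2 * q + p.2) ?_
  exact Pr.eq (Fn.fst (Fn.fst Fn.fst')) (Fn.add (Fn.mul (Fn.fst (Fn.fst Fn.snd')) Fn.snd')
    (Fn.fst Fn.snd'))

theorem md_pr' (a b : N) : Pr (fun r : N => ∃ q ≤ a, a = b * q + r) :=
  Pr.fix (md_pr (N := N)) (a, b)

theorem md_ex (a b : N) : ∃ r, ∃ q ≤ a, a = b * q + r := ⟨a, 0, by simp, by simp⟩

theorem Fn.md {f g : Γ → N} (hf : Fn f) (hg : Fn g) : Fn (fun x => md (f x) (g x)) := by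
  refine Fn.comp₂ (f := fun a b : N => RM.md a b) ?_ hf hg
  exact Fn.mu (P := fun (p : N × N) r => ∃ q ≤ p.1, p.1 = p.2 * q + r) md_pr
    (fun p => md_ex _ _)

theorem md_spec (a b : N) : ∃ q, a = b * q + md a b := by
  obtain ⟨q, _, h⟩ := (mu_spec (md_pr' a b) (md_ex a b)).1
  exact ⟨q, h⟩

theorem md_lt (a : N) {b : N} (hb : 0 < b) : md a b < b := by
  by_contra hc
  push Not at hc
  obtain ⟨q, hq, h⟩ := (mu_spec (md_pr' a b) (md_ex a b)).1
  obtain ⟨r, hr⟩ := exists_add_of_le hc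
  have h2 : mu (fun r => ∃ q ≤ a, a = b * q + r) = b + r := hr
  rw [h2] at h
  have h3 : ∃ q ≤ a, a = b * q + r := by
    refine ⟨q + 1, ?_, ?_⟩
    · rw [h]
      have : q + 1 ≤ b * (q + 1) := le_mul_of_pos' hb
      refine this.trans ?_
      rw [mul_add, mul_one, ← add_assoc]
      exact le_self_add
    · rw [mul_add, mul_one, add_assoc]; exact h
  have h4 := mu_le (md_pr' a b) h3
  rw [h2] at h4
  exact absurd h4 (not_le.2 (by
    have := lt_add_of_pos_left r hb
    exact this))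

theorem div_unique {b q q' r r' : N} (h : b * q + r = b * q' + r') (hr : r < b) (hr' : r' < b) :
    r = r' := by
  have key : ∀ {q q' r r' : N}, b * q + r = b * q' + r' → r < b → ¬ q < q' := by
    intro q q' r r' h hr h2
    obtain ⟨k, rfl⟩ := exists_add_of_le ((succ_le_iff' q q').2 h2)
    have h3 : b * q + r = b * q + (b + (b * k + r')) := by rw [h]; ring
    have h4 := add_left_cancel h3
    rw [h4] at hr
    exact absurd hr (not_lt.2 le_self_add)
  rcases lt_trichotomy q q' with h2 | h2 | h2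
  · exact absurd h2 (key h hr)
  · subst h2
    exact add_left_cancel h
  · exact absurd h2 (key h.symm hr')

theorem md_unique {a b q r : N} (h : a = b * q + r) (hr : r < b) : md a b = r := by
  obtain ⟨q', hq'⟩ := md_spec a b
  have hb : 0 < b := lt_of_le_of_lt zero_le hr
  exact (div_unique (h.symm.trans hq') hr (md_lt a hb)).symm

theorem md_of_lt {a b : N} (h : a < b) : md a b = a := md_unique (q := 0) (by simp) h

theorem md_add_mul (a b k : N) : md (a + b * k) b = md a b := by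
  rcases eq_or_ne b 0 with rfl | hb
  · simp
  · obtain ⟨q, hq⟩ := md_spec a b
    have h1 := md_lt a (pos_iff.2 hb)
    refine md_unique (q := q + k) ?_ h1
    conv_lhs => rw [hq]
    ring

theorem md_add_mul' (a b k : N) : md (a + k * b) b = md a b := by
  rw [mul_comm]; exact md_add_mul a b k

theorem md_zero (b : N) : md 0 b = 0 := by
  rcases eq_or_ne b 0 with rfl | hb
  · obtain ⟨q, hq⟩ := md_spec (0 : N) 0
    rw [zero_mul, zero_add] at hq
    exact hq.symm
  · exact md_of_lt (pos_iff.2 hb)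

theorem md_mod_zero (a : N) : md a 0 = a := by
  obtain ⟨q, hq⟩ := md_spec a (0 : N)
  rw [zero_mul, zero_add] at hq
  exact hq.symm

theorem dvd_iff_md {a b : N} : b ∣ a ↔ md a b = 0 := by
  constructor
  · rintro ⟨c, rfl⟩
    have := md_add_mul 0 b c
    rw [zero_add, md_zero] at this
    exact this
  · intro h
    obtain ⟨q, hq⟩ := md_spec a b
    rw [h, add_zero] at hq
    exact ⟨q, hq⟩

theorem md_md (a b : N) : md (md a b) b = md a b := by
  rcases eq_or_ne b 0 with rfl | hb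
  · rw [md_mod_zero]
  · exact md_of_lt (md_lt a (pos_iff.2 hb))

/-- congruence modulo `m` -/
theorem md_eq_iff {a b m : N} : md a m = md b m ↔ ∃ k l, a + m * k = b + m * l := by
  constructor
  · intro h
    obtain ⟨q, hq⟩ := md_spec a m
    obtain ⟨q', hq'⟩ := md_spec b m
    refine ⟨q', q, ?_⟩
    conv_lhs => rw [hq]
    conv_rhs => rw [hq']
    rw [h]; ring
  · rintro ⟨k, l, h⟩
    rw [← md_add_mul a m k, h, md_add_mul]

theorem md_add {a b a' b' m : N} (h : md a m = md a' m) (h' : md b m = md b' m) :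
    md (a + b) m = md (a' + b') m := by
  obtain ⟨k, l, h⟩ := md_eq_iff.1 h
  obtain ⟨k', l', h'⟩ := md_eq_iff.1 h'
  refine md_eq_iff.2 ⟨k + k', l + l', ?_⟩
  calc a + b + m * (k + k') = (a + m * k) + (b + m * k') := by ring
    _ = (a' + m * l) + (b' + m * l') := by rw [h, h']
    _ = _ := by ring

theorem md_mul {a b a' b' m : N} (h : md a m = md a' m) (h' : md b m = md b' m) :
    md (a * b) m = md (a' * b') m := by
  obtain ⟨k, l, h⟩ := md_eq_iff.1 h
  obtain ⟨k', l', h'⟩ := md_eq_iff.1 h'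
  have e1 : md (a * b) m = md ((a + m * k) * (b + m * k')) m := by
    have : (a + m * k) * (b + m * k') = a * b + m * (k * b + a * k' + m * k * k') := by ring
    rw [this, md_add_mul]
  have e2 : md (a' * b') m = md ((a' + m * l) * (b' + m * l')) m := by
    have : (a' + m * l) * (b' + m * l') = a' * b' + m * (l * b' + a' * l' + m * l * l') := by ring
    rw [this, md_add_mul]
  rw [e1, e2, h, h']

theorem md_mod_dvd {a b m n : N} (h : m ∣ n) (hab : md a n = md b n) : md a m = md b m := by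
  obtain ⟨k, l, hk⟩ := md_eq_iff.1 hab
  obtain ⟨c, rfl⟩ := h
  exact md_eq_iff.2 ⟨c * k, c * l, by rw [← mul_assoc, ← mul_assoc]; exact hk⟩

/-! ### coprimality -/

/-- coprime -/
def Cop (a b : N) : Prop := ∀ d, d ∣ a → d ∣ b → d = 1

theorem Cop.symm {a b : N} (h : Cop a b) : Cop b a := fun d h1 h2 => h d h2 h1

theorem cop_iff_le (a b : N) : Cop a b ↔ ∀ d ≤ a + b, d ∣ a → d ∣ b → d = 1 := by
  constructor
  · intro h d _ h1 h2; exact h d h1 h2
  · intro h d h1 h2
    rcases eq_or_ne (a + b) 0 with h3 | h3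
    · exfalso
      have ha : a = 0 := (add_eq_zero.1 h3).1
      have hb : b = 0 := (add_eq_zero.1 h3).2
      have := h 0 (by simp) (by simp [ha]) (by simp [hb])
      exact zero_ne_one this
    · exact h d (le_of_dvd' (pos_iff.2 h3) (dvd_add h1 h2)) h1 h2

theorem Pr.cop {f g : Γ → N} (hf : Fn f) (hg : Fn g) : Pr (fun x => Cop (f x) (g x)) := by
  have h1 : Pr (fun x => ∀ d ≤ f x + g x, d ∣ f x → d ∣ g x → d = 1) := by
    refine Pr.ball_le (Fn.add hf hg) (P := fun x d => d ∣ f x → d ∣ g x → d = 1) ?_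
    exact Pr.imp (Pr.dvd Fn.snd' (Fn.fst hf)) (Pr.imp (Pr.dvd Fn.snd' (Fn.fst hg))
      (Pr.eq Fn.snd' (Fn.const 1)))
  exact h1.of_iff (fun x => cop_iff_le _ _)

/-- inverse modulo `m` -/
theorem Cop.bezout {a m : N} (h : Cop a m) (hm : 0 < m) : ∃ t, md (a * t) m = md 1 m := by
  rcases eq_or_ne m 1 with rfl | hm1
  · exact ⟨0, by rw [lt_one.1 (md_lt (a * 0) zero_lt_one), lt_one.1 (md_lt (1 : N) zero_lt_one)]⟩
  have hP : Pr (fun d : N => 0 < d ∧ ∃ t < m, md (a * t) m = d) := by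
    refine Pr.and (Pr.lt (Fn.const 0) Fn.id) (Pr.bex (Fn.const m)
      (P := fun d t => md (a * t) m = d) ?_)
    exact Pr.eq (Fn.md (Fn.mul (Fn.const a) Fn.snd') (Fn.const m)) Fn.fst'
  have h1m : 1 < m := by
    rcases lt_or_eq_of_le (one_le_of_pos hm) with h | h
    · exact h
    · exact absurd h.symm hm1
  have hex : ∃ d : N, 0 < d ∧ ∃ t < m, md (a * t) m = d := by
    refine ⟨md (a * 1) m, pos_iff.2 (fun h0 => hm1 ?_), 1, h1m, rfl⟩
    rw [mul_one] at h0
    exact h m (dvd_iff_md.2 h0) dvd_rfl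
  obtain ⟨d, ⟨hd0, t, htm, ht⟩, hmin⟩ := Pr.least hP hex
  have hdm : d < m := by rw [← ht]; exact md_lt _ hm
  -- the set of values is closed
  have hval : ∀ s r, md (a * s) m = r → r < d → r = 0 := by
    intro s r hs hr
    by_contra h0
    refine hmin r hr ⟨pos_iff.2 h0, md s m, md_lt s hm, ?_⟩
    rw [← hs]
    exact md_mul rfl (md_md s m)
  obtain ⟨m', rfl⟩ : ∃ m', m = m' + 1 := by
    obtain ⟨k, hk⟩ := exists_add_of_le (one_le_of_pos hm)
    exact ⟨k, by rw [hk, add_comm]⟩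
  have hat : ∀ q, md (a * (t * (m' * q))) (m' + 1) = md (d * (m' * q)) (m' + 1) := by
    intro q
    rw [← mul_assoc]
    refine md_mul ?_ rfl
    rw [ht]; exact (md_of_lt hdm).symm
  -- d divides m
  have hd1 : d ∣ m' + 1 := by
    obtain ⟨q, hq⟩ := md_spec (m' + 1) d
    have hr := md_lt (m' + 1) hd0
    set r := md (m' + 1) d with hrdef
    have h2 : md (a * (t * (m' * q))) (m' + 1) = r := by
      rw [hat, ← md_add_mul' _ _ 1, one_mul]
      have : d * (m' * q) + (m' + 1) = r + (m' + 1) * (d * q) := by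
        calc d * (m' * q) + (m' + 1) = d * (m' * q) + (d * q + r) := by rw [← hq]
          _ = r + (m' + 1) * (d * q) := by ring
      rw [this, md_add_mul]
      exact md_of_lt (lt_trans hr hdm)
    exact dvd_iff_md.2 (hval _ _ h2 hr)
  have hd2 : d ∣ a := by
    obtain ⟨q, hq⟩ := md_spec a d
    have hr := md_lt a hd0
    set r := md a d with hrdef
    have h2 : md (a * (1 + t * (m' * q))) (m' + 1) = r := by
      rw [mul_add, mul_one]
      have : md (a + a * (t * (m' * q))) (m' + 1) = md (a + d * (m' * q)) (m' + 1) :=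
        md_add rfl (hat q)
      rw [this]
      have : a + d * (m' * q) = r + (m' + 1) * (d * q) := by
        conv_lhs => rw [hq]
        ring
      rw [this, md_add_mul]
      exact md_of_lt (lt_trans hr hdm)
    exact dvd_iff_md.2 (hval _ _ h2 hr)
  have := h d hd2 hd1
  subst this
  exact ⟨t, by rw [ht]; exact (md_of_lt hdm).symm⟩

/-- congruences can be divided by coprime factors: `d ∣ a * b`, `a` coprime to `m`, `d ∣ m` -/
theorem Cop.dvd_of_dvd_mul {a b d : N} (h : Cop a d) (hd : 0 < d) (h2 : d ∣ a * b) : d ∣ b := by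
  obtain ⟨t, ht⟩ := h.bezout hd
  have h3 : md (a * t * b) d = md (1 * b) d := md_mul ht rfl
  rw [one_mul] at h3
  have h4 : md (a * t * b) d = 0 := dvd_iff_md.1 (by
    have : a * t * b = a * b * t := by ring
    rw [this]; exact Dvd.dvd.mul_right h2 t)
  exact dvd_iff_md.2 (h3.symm.trans h4)

theorem Cop.of_dvd {a b a' : N} (h : Cop a b) (h' : a' ∣ a) : Cop a' b :=
  fun d h1 h2 => h d (dvd_trans h1 h') h2

theorem Cop.of_dvd' {a b b' : N} (h : Cop a b) (h' : b' ∣ b) : Cop a b' :=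
  fun d h1 h2 => h d h1 (dvd_trans h2 h')

theorem Cop.mul {a b m : N} (h : Cop a m) (h' : Cop b m) : Cop (a * b) m := by
  intro d h1 h2
  rcases eq_or_ne d 0 with rfl | hd
  · have hm : m = 0 := zero_dvd_iff.1 h2
    subst hm
    have ha : a = 1 := h a dvd_rfl (dvd_zero a)
    have hb : b = 1 := h' b dvd_rfl (dvd_zero b)
    subst ha; subst hb
    rw [mul_one, zero_dvd_iff] at h1
    exact absurd h1 one_ne_zero
  · have h3 : Cop a d := h.of_dvd' h2
    exact h' d (h3.dvd_of_dvd_mul (pos_iff.2 hd) h1) h2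

/-! ### finite sequences -/

/-- a positive common multiple of `1, …, n` -/
theorem cm_ex (n : N) : ∃ f : N, 0 < f ∧ ∀ j < n, 0 < j → j ∣ f := by
  refine Sig.ind (P := fun n : N => ∃ f : N, 0 < f ∧ ∀ j < n, 0 < j → j ∣ f) ?_ ?_ ?_ n
  · refine Sig.ex (P := fun (n f : N) => 0 < f ∧ ∀ j < n, 0 < j → j ∣ f) (Pr.sig ?_)
    refine Pr.and (Pr.lt (Fn.const 0) Fn.snd') (Pr.ball Fn.fst'
      (P := fun (p : N × N) j => 0 < j → j ∣ p.2) ?_)
    exact Pr.imp (Pr.lt (Fn.const 0) Fn.snd') (Pr.dvd Fn.snd' (Fn.fst Fn.snd'))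
  · exact ⟨1, zero_lt_one, fun j hj => absurd hj not_lt_zero⟩
  · rintro n ⟨f, hf, h⟩
    rcases eq_or_ne n 0 with rfl | hn
    · refine ⟨1, zero_lt_one, fun j hj hj0 => ?_⟩
      have := (lt_succ_iff' j 0).1 hj
      exact absurd hj0 (not_lt.2 this)
    · refine ⟨f * n, mul_pos hf (pos_iff.2 hn), fun j hj hj0 => ?_⟩
      rcases lt_or_eq_of_le ((lt_succ_iff' j n).1 hj) with h1 | rfl
      · exact Dvd.dvd.mul_right (h j h1 hj0) _
      · exact Dvd.intro_left f rfl

/-- the entries of the sequence coded by a pair -/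
noncomputable def bt (p : N × N) (i : N) : N := md p.1 (p.2 * (i + 1) + 1)

theorem Fn.bt {f : Γ → N × N} {g : Γ → N} (hf : Fn f) (hg : Fn g) :
    Fn (fun x => bt (f x) (g x)) := by
  have h1 : Fn (fun x => (f x).1) := Fn.comp (f := fun p : N × N => p.1) Fn.fst' hf
  have h2 : Fn (fun x => (f x).2) := Fn.comp (f := fun p : N × N => p.2) Fn.snd' hf
  exact Fn.md h1 (Fn.add (Fn.mul h2 (Fn.add hg (Fn.const 1))) (Fn.const 1))

theorem cop_moduli {b i j : N} (hij : i < j) (hb : ∀ k ≤ j, 0 < k → k ∣ b) :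
    Cop (b * (i + 1) + 1) (b * (j + 1) + 1) := by
  intro d h1 h2
  obtain ⟨k, rfl⟩ := exists_add_of_le hij.le
  have hk0 : 0 < k := by
    rcases eq_or_ne k 0 with rfl | hk
    · simp at hij
    · exact pos_iff.2 hk
  have hk : k ∣ b := hb k le_add_self hk0
  have h3 : d ∣ b * k := by
    have e : b * (i + k + 1) + 1 = b * k + (b * (i + 1) + 1) := by ring
    rw [e] at h2
    exact dvd_of_dvd_add h2 h1
  have h4 : d ∣ k := by
    have e : k + (b * k) * (i + 1) = (b * (i + 1) + 1) * k := by ring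
    have h5 : d ∣ k + (b * k) * (i + 1) := by rw [e]; exact Dvd.dvd.mul_right h1 _
    exact dvd_of_dvd_add h5 (Dvd.dvd.mul_right h3 _)
  have h5 : d ∣ b * (i + 1) := Dvd.dvd.mul_right (dvd_trans h4 hk) _
  exact eq_one_of_dvd_one (dvd_of_dvd_add' h1 h5)

/-- every initial segment of a function is coded -/
theorem code_ex {F : N → N} (hF : Fn F) (n : N) : ∃ p : N × N, ∀ j < n, bt p j = F j := by
  obtain ⟨B, hB⟩ := Pr.coll (Q := fun a y => F a = y)
    (Pr.eq (Fn.comp hF Fn.fst') Fn.snd') n (fun a _ => ⟨F a, rfl⟩)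
  obtain ⟨f, hf0, hf⟩ := cm_ex (n + 1)
  set b := f * (B + 1) with hb
  have hbB : B ≤ b := by
    rw [hb]
    exact (le_self_add).trans (le_mul_of_pos' hf0)
  have hbdvd : ∀ k < n + 1, 0 < k → k ∣ b := fun k hk hk0 => Dvd.dvd.mul_right (hf k hk hk0) _
  have hcop : ∀ i j, i < j → j < n → Cop (b * (i + 1) + 1) (b * (j + 1) + 1) := by
    intro i j hij hj
    exact cop_moduli hij (fun k hk hk0 => hbdvd k (lt_of_le_of_lt hk (lt_trans hj (lt_add_one' n))) hk0)
  have hFb : ∀ j < n, F j < b * (j + 1) + 1 := by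
    intro j hj
    obtain ⟨y, hy, hFy⟩ := hB j hj
    rw [hFy]
    refine (lt_of_lt_of_le hy hbB).trans_le ?_
    exact (le_mul_of_pos (lt_of_lt_of_le zero_lt_one le_add_self)).trans le_self_add
  have main : ∀ k : N, ∃ w : N, ∃ P : N, n < k ∨ (0 < P ∧ (∀ i < k, b * (i + 1) + 1 ∣ P) ∧
      (∀ i < n, k ≤ i → Cop P (b * (i + 1) + 1)) ∧ ∀ i < k, md w (b * (i + 1) + 1) = F i) := by
    refine Sig.ind ?_ ?_ ?_
    · refine Sig.ex (P := fun (k w : N) => ∃ P : N, n < k ∨ (0 < P ∧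
        (∀ i < k, b * (i + 1) + 1 ∣ P) ∧ (∀ i < n, k ≤ i → Cop P (b * (i + 1) + 1)) ∧
        ∀ i < k, md w (b * (i + 1) + 1) = F i)) ?_
      refine Sig.ex (P := fun (q : N × N) (P : N) => n < q.1 ∨ (0 < P ∧
        (∀ i < q.1, b * (i + 1) + 1 ∣ P) ∧ (∀ i < n, q.1 ≤ i → Cop P (b * (i + 1) + 1)) ∧
        ∀ i < q.1, md q.2 (b * (i + 1) + 1) = F i)) (Pr.sig ?_)
      have hmod : Fn (fun q : ((N × N) × N) × N => b * (q.2 + 1) + 1) :=
        Fn.add (Fn.mul (Fn.const b) (Fn.add Fn.snd' (Fn.const 1))) (Fn.const 1)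
      refine Pr.or (Pr.lt (Fn.const n) (Fn.fst Fn.fst')) (Pr.and (Pr.lt (Fn.const 0) Fn.snd')
        (Pr.and ?_ (Pr.and ?_ ?_)))
      · exact Pr.ball (Fn.fst Fn.fst') (P := fun (q : (N × N) × N) i => b * (i + 1) + 1 ∣ q.2)
          (Pr.dvd hmod (Fn.fst Fn.snd'))
      · exact Pr.ball (Fn.const n)
          (P := fun (q : (N × N) × N) i => q.1.1 ≤ i → Cop q.2 (b * (i + 1) + 1))
          (Pr.imp (Pr.le (Fn.fst (Fn.fst Fn.fst')) Fn.snd') (Pr.cop (Fn.fst Fn.snd') hmod))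
      · exact Pr.ball (Fn.fst Fn.fst')
          (P := fun (q : (N × N) × N) i => md q.1.2 (b * (i + 1) + 1) = F i)
          (Pr.eq (Fn.md (Fn.fst (Fn.fst Fn.snd')) hmod) (Fn.comp hF Fn.snd'))
    · refine ⟨0, 1, Or.inr ⟨zero_lt_one, fun i hi => absurd hi not_lt_zero, fun i _ _ => ?_,
        fun i hi => absurd hi not_lt_zero⟩⟩
      exact fun d h _ => eq_one_of_dvd_one h
    · rintro k ⟨w, P, h⟩
      rcases h with h | ⟨hP0, h1, h2, h3⟩
      · exact ⟨0, 0, Or.inl (lt_trans h (lt_add_one' k))⟩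
      · rcases lt_or_ge k n with hkn | hkn
        · set mk := b * (k + 1) + 1 with hmk
          have hmk0 : 0 < mk := lt_of_lt_of_le zero_lt_one le_add_self
          obtain ⟨t, ht⟩ := (h2 k hkn le_rfl).bezout hmk0
          -- v ≡ F k - w
          obtain ⟨w', P', hw'⟩ : ∃ (v : N) (_ : Unit), md (w + P * (t * v)) mk = F k := by
            refine ⟨F k + w * (b * (k + 1)), (), ?_⟩
            have e1 : md (P * t * (F k + w * (b * (k + 1)))) mk =
                md (1 * (F k + w * (b * (k + 1)))) mk := md_mul ht rfl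
            rw [one_mul, mul_assoc] at e1
            have e2 := md_add (m := mk) (a := w) (a' := w) rfl e1
            rw [e2]
            have e3 : w + (F k + w * (b * (k + 1))) = F k + mk * w := by rw [hmk]; ring
            rw [e3, md_add_mul]
            exact md_of_lt (hFb k hkn)
          refine ⟨w + P * (t * w'), P * mk, Or.inr ⟨mul_pos hP0 hmk0, ?_, ?_, ?_⟩⟩
          · intro i hi
            rcases lt_or_eq_of_le ((lt_succ_iff' i k).1 hi) with h4 | rfl
            · exact Dvd.dvd.mul_right (h1 i h4) _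
            · exact Dvd.intro_left P rfl
          · intro i hi hki
            have hki' : k < i := (succ_le_iff' k i).1 hki
            exact Cop.mul (h2 i hi hki'.le) (hcop k i hki' hi)
          · intro i hi
            rcases lt_or_eq_of_le ((lt_succ_iff' i k).1 hi) with h4 | rfl
            · obtain ⟨c, hc⟩ := h1 i h4
              rw [← h3 i h4, hc, mul_assoc, md_add_mul]
            · exact hw'
        · exact ⟨0, 0, Or.inl ((lt_succ_iff' n k).2 hkn)⟩
  obtain ⟨w, P, h⟩ := main n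
  rcases h with h | ⟨_, _, _, h⟩
  · exact absurd h (lt_irrefl n)
  · exact ⟨(w, b), fun j hj => h j hj⟩

/-! ### recursion -/

/-- course-of-values recursion -/
theorem cov_rec {Φ : Γ → N → (N × N) → N}
    (hΦ : Fn (fun q : (Γ × N) × (N × N) => Φ q.1.1 q.1.2 q.2))
    (hloc : ∀ x n p p', (∀ j < n, bt p j = bt p' j) → Φ x n p = Φ x n p') :
    ∃ r : Γ → N → N, Fn (fun q : Γ × N => r q.1 q.2) ∧
      ∀ x n p, (∀ j < n, bt p j = r x j) → r x n = Φ x n p := by
  have hC : Pr (fun q : (Γ × N) × (N × N) => ∀ i < q.1.2, bt q.2 i = Φ q.1.1 i q.2) := by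
    refine Pr.ball (Fn.fst Fn.snd')
      (P := fun (q : (Γ × N) × (N × N)) i => bt q.2 i = Φ q.1.1 i q.2) ?_
    refine Pr.eq (Fn.bt (Fn.fst Fn.snd') Fn.snd') ?_
    exact Fn.comp (f := fun q : (Γ × N) × (N × N) => Φ q.1.1 q.1.2 q.2) hΦ
      (Fn.pair (Fn.pair (Fn.fst (Fn.fst Fn.fst')) Fn.snd') (Fn.fst Fn.snd'))
  have hΦ1 : ∀ x p, Fn (fun i : N => Φ x i p) := fun x p =>
    Fn.comp (f := fun q : (Γ × N) × (N × N) => Φ q.1.1 q.1.2 q.2) hΦ
      (Fn.pair (Fn.pair (Fn.const x) Fn.id) (Fn.const p))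
  -- uniqueness
  have huniq : ∀ x n n' p p', (∀ i < n, bt p i = Φ x i p) → (∀ i < n', bt p' i = Φ x i p') →
      ∀ i, i < n → i < n' → bt p i = bt p' i := by
    intro x n n' p p' h h'
    refine Pr.strong_ind ?_ ?_
    · refine Pr.imp (Pr.lt Fn.id (Fn.const n)) (Pr.imp (Pr.lt Fn.id (Fn.const n')) ?_)
      exact Pr.eq (Fn.bt (Fn.const p) Fn.id) (Fn.bt (Fn.const p') Fn.id)
    · intro i ih hi hi'
      rw [h i hi, h' i hi']
      exact hloc x i p p' (fun j hj => ih j hj (lt_trans hj hi) (lt_trans hj hi'))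
  -- existence
  have hex : ∀ x n, ∃ p : N × N, ∀ i < n, bt p i = Φ x i p := by
    intro x
    refine Sig.ind ?_ ?_ ?_
    · refine Sig.exs (P := fun (n : N) (p : N × N) => ∀ i < n, bt p i = Φ x i p) (Pr.sig ?_)
      exact Pr.comp hC (f := fun q : N × (N × N) => ((x, q.1), q.2))
        (Fn.pair (Fn.pair (Fn.const x) Fn.fst') Fn.snd')
    · exact ⟨(0, 0), fun i hi => absurd hi not_lt_zero⟩
    · rintro n ⟨p, hp⟩
      classical
      have hF : Fn (fun i : N => if i < n then bt p i else Φ x n p) :=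
        Fn.ite' (Pr.lt Fn.id (Fn.const n)) (Fn.bt (Fn.const p) Fn.id) (Fn.const _)
      obtain ⟨p', hp'⟩ := code_ex hF (n + 1)
      refine ⟨p', fun i hi => ?_⟩
      have hlow : ∀ j < n, bt p' j = bt p j := by
        intro j hj
        rw [hp' j (lt_trans hj (lt_add_one' n)), if_pos hj]
      rcases lt_or_eq_of_le ((lt_succ_iff' i n).1 hi) with h | rfl
      · rw [hlow i h, hp i h]
        exact hloc x i p p' (fun j hj => (hlow j (lt_trans hj h)).symm)
      · rw [hp' i hi, if_neg (lt_irrefl i)]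
        exact hloc x i p p' (fun j hj => (hlow j hj).symm)
  choose! P hP using hex
  refine ⟨fun x n => bt (P x (n + 1)) n, ?_, ?_⟩
  · have h1 : Sig (fun q : (Γ × N) × N => ∃ p : N × N,
        (∀ i < q.1.2 + 1, bt p i = Φ q.1.1 i p) ∧ bt p q.1.2 = q.2) := by
      refine Sig.exs (P := fun (q : (Γ × N) × N) (p : N × N) =>
        (∀ i < q.1.2 + 1, bt p i = Φ q.1.1 i p) ∧ bt p q.1.2 = q.2) (Pr.sig (Pr.and ?_ ?_))
      · exact Pr.comp hC (f := fun q : ((Γ × N) × N) × (N × N) => ((q.1.1.1, q.1.1.2 + 1), q.2))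
          (Fn.pair (Fn.pair (Fn.fst (Fn.fst Fn.fst')) (Fn.add (Fn.fst (Fn.fst Fn.snd'))
            (Fn.const 1))) Fn.snd')
      · exact Pr.eq (Fn.bt Fn.snd' (Fn.fst (Fn.fst Fn.snd'))) (Fn.fst Fn.snd')
    refine h1.of_iff (fun q => ?_)
    dsimp only
    constructor
    · intro h
      exact ⟨P q.1.1 (q.1.2 + 1), hP q.1.1 (q.1.2 + 1), h⟩
    · rintro ⟨p, hp, hpq⟩
      rw [← hpq]
      exact huniq q.1.1 (q.1.2 + 1) (q.1.2 + 1) _ _ (hP q.1.1 (q.1.2 + 1)) hp q.1.2
        (lt_add_one' _) (lt_add_one' _)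
  · intro x n p hp
    dsimp only at hp ⊢
    rw [hP x (n + 1) n (lt_add_one' n)]
    refine hloc x n _ p (fun j hj => ?_)
    rw [hp j hj]
    exact huniq x (n + 1) (j + 1) _ _ (hP x (n + 1)) (hP x (j + 1)) j
      (lt_trans hj (lt_add_one' n)) (lt_add_one' j)

open Classical in
/-- recursion along a decreasing function: `r x n = ψ x n (r x (d x n))` if `d x n < n`, and
`r x n = β x n` otherwise -/
theorem wf_rec {d β : Γ → N → N} {ψ : Γ → N → N → N} (hd : Fn (fun q : Γ × N => d q.1 q.2))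
    (hβ : Fn (fun q : Γ × N => β q.1 q.2))
    (hψ : Fn (fun q : (Γ × N) × N => ψ q.1.1 q.1.2 q.2)) :
    ∃ r : Γ → N → N, Fn (fun q : Γ × N => r q.1 q.2) ∧
      ∀ x n, r x n = if d x n < n then ψ x n (r x (d x n)) else β x n := by
  obtain ⟨r, hr, h⟩ := cov_rec (Γ := Γ)
    (Φ := fun x n p => if d x n < n then ψ x n (bt p (d x n)) else β x n) (by
      have hd' : Fn (fun q : (Γ × N) × (N × N) => d q.1.1 q.1.2) := Fn.fst hd
      refine Fn.ite' (Pr.lt hd' (Fn.fst Fn.snd')) ?_ (Fn.fst hβ)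
      exact Fn.comp (f := fun q : (Γ × N) × N => ψ q.1.1 q.1.2 q.2) hψ
        (Fn.pair Fn.fst' (Fn.bt Fn.snd' hd'))) (by
      intro x n p p' hp
      split_ifs with h1
      · rw [hp _ h1]
      · rfl)
  refine ⟨r, hr, fun x n => ?_⟩
  obtain ⟨p, hp⟩ := code_ex (F := fun j => r x j) (Fn.comp (f := fun q : Γ × N => r q.1 q.2) hr
    (Fn.pair (Fn.const x) Fn.id)) n
  rw [h x n p hp]
  split_ifs with h1
  · rw [hp _ h1]
  · rfl

/-- primitive recursion -/
theorem prim_rec {g : Γ → N} {ψ : Γ → N → N → N} (hg : Fn g)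
    (hψ : Fn (fun q : (Γ × N) × N => ψ q.1.1 q.1.2 q.2)) :
    ∃ r : Γ → N → N, Fn (fun q : Γ × N => r q.1 q.2) ∧ (∀ x, r x 0 = g x) ∧
      ∀ x n, r x (n + 1) = ψ x n (r x n) := by
  classical
  obtain ⟨r, hr, h⟩ := wf_rec (Γ := Γ) (d := fun _ n => n - 1) (β := fun x _ => g x)
    (ψ := fun x n y => ψ x (n - 1) y) (Fn.tsub Fn.snd' (Fn.const 1)) (Fn.fst hg)
    (Fn.comp (f := fun q : (Γ × N) × N => ψ q.1.1 q.1.2 q.2) hψ
      (Fn.pair (Fn.pair (Fn.fst Fn.fst') (Fn.tsub (Fn.fst Fn.snd') (Fn.const 1))) Fn.snd'))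
  refine ⟨r, hr, fun x => ?_, fun x n => ?_⟩
  · rw [h, if_neg not_lt_zero]
  · rw [h, if_pos (by rw [add_tsub_cancel_right]; exact lt_add_one' n), add_tsub_cancel_right]

end Pool.Agent.Helper81.RM
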